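import Pool.Agent.R130.Theon.Defs

/-!
# Limit objects of universal relational theories, with arbitrary values on tuples with repetitions

A variant of `Pool.Agent.R130.Theon.Defs` in which relations may also hold for tuples of vertices
that are not distinct: a Euclidean structure has one measurable set (peon) for every relation symbol
and every equality pattern of its arguments.
-/

open MeasureTheory ProbabilityTheory Pool.Agent.R130.Theon

namespace Pool.Agent.R80.GT

/-- The image `a(A)` of a non-empty set `A` of positions under a tuple `a` (repetitions allowed). -/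
def img {n : ℕ} (a : Fin n → ℕ) (A : Idx (Fin n)) : Idx ℕ := ⟨A.1.image a, A.2.image a⟩

/-- A Euclidean structure over the measurable space `X`: for every relation symbol `P` of arity
`n` and every equality pattern (equivalence relation on the positions) `π` of an `n`-tuple a
measurable set (peon) in `X ^ r([n])`. -/
structure Euc (L : FirstOrder.Language.{0, 0}) (X : Type) [MeasurableSpace X] where
  /-- the peons -/
  peon : (p : Σ n, L.Relations n) → Setoid (Fin p.1) → Set (Idx (Fin p.1) → X)
  /-- peons are measurable -/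
  meas : ∀ p π, MeasurableSet (peon p π)

variable {L L₁ L₂ : FirstOrder.Language.{0, 0}} {X X₁ X₂ : Type} [MeasurableSpace X]
  [MeasurableSpace X₁] [MeasurableSpace X₂]

/-- The structure `K` obtained from the coordinates `θ`: `P(a)` holds iff `(θ_{a(A)})_A` lies in
the peon of `P` for the equality pattern of `a`. -/
def Euc.arr (N : Euc L X) (θ : Idx ℕ → X) : Str L := fun p a =>
  (fun A : Idx (Fin p.1) => θ (img a A)) ∈ N.peon p (Setoid.ker a)

/-- The law of the exchangeable array of a Euclidean structure. -/
noncomputable def Euc.law (N : Euc L X) (μ : Measure X) [IsProbabilityMeasure μ] :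
    Measure (Str L) := (iid μ).map N.arr

/-- `N` is a `T`-on: its array is almost surely a model of `T`. -/
def Euc.IsTon [L.IsRelational] (N : Euc L X) (μ : Measure X) [IsProbabilityMeasure μ]
    (T : L.Theory) : Prop := ∀ᵐ θ ∂(iid μ), (N.arr θ).Models T

/-- Limit objects of the theory `T`: laws of the arrays of `T`-ons (over standard Borel spaces). -/
def IsLimit [L.IsRelational] (T : L.Theory) (φ : Measure (Str L)) : Prop :=
  ∃ (X : Type) (_ : MeasurableSpace X) (_ : StandardBorelSpace X) (μ : Measure X)
    (_ : IsProbabilityMeasure μ) (N : Euc L X), N.IsTon μ T ∧ N.law μ = φ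

/-- `ξ` is a coupling of the limit objects `φ₁` of `T₁` and `φ₂` of `T₂`. -/
def IsCoupling [L₁.IsRelational] [L₂.IsRelational] (T₁ : L₁.Theory) (T₂ : L₂.Theory)
    (φ₁ : Measure (Str L₁)) (φ₂ : Measure (Str L₂)) (ξ : Measure (Str (L₁.sum L₂))) : Prop :=
  IsLimit (unionTheory T₁ T₂) ξ ∧ ξ.map redL = φ₁ ∧ ξ.map redR = φ₂

/-- `φ₁` and `φ₂` are uniquely coupleable: the independent coupling is their only coupling. -/
def UniquelyCoupleable [L₁.IsRelational] [L₂.IsRelational] (T₁ : L₁.Theory) (T₂ : L₂.Theory)
    (φ₁ : Measure (Str L₁)) (φ₂ : Measure (Str L₂)) : Prop :=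
  ∀ ξ, IsCoupling T₁ T₂ φ₁ φ₂ ξ → ξ = indepCoupling φ₁ φ₂

/-! ### Basic facts -/

lemma Euc.measurable_arr (N : Euc L X) : Measurable N.arr := by
  refine measurable_pi_lambda _ fun p => measurable_pi_lambda _ fun a => ?_
  have hm : Measurable (fun (θ : Idx ℕ → X) (A : Idx (Fin p.1)) => θ (img a A)) :=
    measurable_pi_lambda _ fun A => measurable_pi_apply _
  exact measurableSet_setOfPred.1 (hm (N.meas p _))

instance (N : Euc L X) (μ : Measure X) [IsProbabilityMeasure μ] :
    IsProbabilityMeasure (N.law μ) :=
  Measure.isProbabilityMeasure_map N.measurable_arr.aemeasurable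

lemma ker_comp_perm {n : ℕ} (σ : Equiv.Perm ℕ) (a : Fin n → ℕ) :
    Setoid.ker (σ ∘ a) = Setoid.ker a := by
  ext i j
  simp [Setoid.ker_def]

lemma img_comp_perm {n : ℕ} (σ : Equiv.Perm ℕ) (a : Fin n → ℕ) (A : Idx (Fin n)) :
    img (σ ∘ a) A = Idx.map σ.toEmbedding (img a A) := by
  apply Subtype.ext
  ext x
  simp [img, Idx.map, Equiv.eq_symm_apply]

lemma Euc.arr_permC (N : Euc L X) (σ : Equiv.Perm ℕ) (θ : Idx ℕ → X) :
    N.arr (permC σ θ) = permS σ (N.arr θ) := by
  funext p a
  simp only [Euc.arr, permS, permC, ker_comp_perm, img_comp_perm]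

lemma Euc.law_permS (N : Euc L X) (μ : Measure X) [IsProbabilityMeasure μ]
    (σ : Equiv.Perm ℕ) : (N.law μ).map (permS σ) = N.law μ := by
  unfold Euc.law
  rw [Measure.map_map (measurable_permS σ) N.measurable_arr]
  have : (permS σ ∘ N.arr : (Idx ℕ → X) → Str L) = N.arr ∘ permC σ := by
    funext θ
    exact (N.arr_permC σ θ).symm
  rw [this, ← Measure.map_map N.measurable_arr (measurable_permC σ), iid_permC]

end Pool.Agent.R80.GT
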