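import Pool.Agent.R80.GT.Defs
import Pool.Agent.R130.Theon.Triple

/-!
# Unique coupleability with an independent coupling (relations with repetitions allowed)
-/

open MeasureTheory ProbabilityTheory Pool.Agent.R130.Theon
open scoped ENNReal

namespace Pool.Agent.R80.GT

variable {L L₁ L₂ L' : FirstOrder.Language.{0, 0}} {X X₁ X₂ : Type} [MeasurableSpace X]
  [MeasurableSpace X₁] [MeasurableSpace X₂]

theorem exists_gluing {L₁ L₂ : FirstOrder.Language.{0, 0}}
    [Countable (Σ n, L₁.Relations n)] [Countable (Σ n, L₂.Relations n)]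
    {X₁ X₂ : Type} [MeasurableSpace X₁] [MeasurableSpace X₂] [StandardBorelSpace X₁]
    [StandardBorelSpace X₂] (μ₁ : Measure X₁) (μ₂ : Measure X₂) [IsProbabilityMeasure μ₁]
    [IsProbabilityMeasure μ₂] (N₁ : Euc L₁ X₁) (N₂ : Euc L₂ X₂)
    (ρ : Measure (Str L₁ × Str L₂)) [IsProbabilityMeasure ρ]
    (h₁ : ρ.map Prod.fst = N₁.law μ₁) (h₂ : ρ.map Prod.snd = N₂.law μ₂)
    (hρ : ∀ σ : Equiv.Perm ℕ, ρ.map (Prod.map (permS σ) (permS σ)) = ρ) :
    ∃ γ : Measure ((Idx ℕ → X₁) × (Idx ℕ → X₂)), IsProbabilityMeasure γ ∧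
      γ.map Prod.fst = iid μ₁ ∧ γ.map Prod.snd = iid μ₂ ∧
      γ.map (Prod.map N₁.arr N₂.arr) = ρ ∧
      ∀ σ : Equiv.Perm ℕ, γ.map (Prod.map (permC σ) (permC σ)) = γ := by
  obtain ⟨γ, hγ, e1, e2, e3, e4⟩ := gluing_abstract (iid μ₁) (iid μ₂) N₁.arr N₂.arr
    N₁.measurable_arr N₂.measurable_arr ρ h₁ h₂
  refine ⟨γ, hγ, e1, e2, e3, fun σ => ?_⟩
  have hinv : ∀ {L : FirstOrder.Language.{0, 0}} (K : Str L), permS σ⁻¹ (permS σ K) = K := by
    intro L K
    funext p a
    simp only [permS]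
    congr 1
    funext i
    simp
  exact e4 (permC σ) (permC σ) (permS σ) (permS σ⁻¹) (permS σ) (permS σ⁻¹)
    (measurable_permC σ) (measurable_permC σ) (measurable_permS σ) (measurable_permS _)
    (measurable_permS σ) (measurable_permS _) (iid_permC μ₁ σ) (iid_permC μ₂ σ) hinv hinv
    (N₁.arr_permC σ) (N₂.arr_permC σ) (hρ σ)

/-- the number of classes of the pattern `π` that meet `A` -/
noncomputable def levQ {n : ℕ} (π : Setoid (Fin n)) (A : Idx (Fin n)) : ℕ+ :=
  haveI : DecidableEq (Quotient π) := Classical.decEq _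
  ⟨(A.1.image (Quotient.mk π)).card, Finset.card_pos.2 (A.2.image _)⟩

lemma lev_img {n : ℕ} (a : Fin n → ℕ) (A : Idx (Fin n)) :
    lev (img a A) = levQ (Setoid.ker a) A := by
  classical
  apply PNat.eq
  change (A.1.image a).card = (@Finset.image _ _ (Classical.decEq _)
    (Quotient.mk (Setoid.ker a)) A.1).card
  have h : A.1.image a = (@Finset.image _ _ (Classical.decEq _)
      (Quotient.mk (Setoid.ker a)) A.1).image (Setoid.kerLift a) := by
    ext x
    simp only [Finset.mem_image]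
    constructor
    · rintro ⟨i, hi, rfl⟩
      exact ⟨_, ⟨i, hi, rfl⟩, rfl⟩
    · rintro ⟨_, ⟨i, hi, rfl⟩, rfl⟩
      exact ⟨i, hi, rfl⟩
  rw [h, Finset.card_image_of_injective _ (Setoid.kerLift_injective a)]

/-- The union of two Euclidean structures (after maps `p₁ (lev A)`, `p₂ (lev A)` of the
coordinates). -/
noncomputable def Euc.comb (N₁ : Euc L₁ X₁) (N₂ : Euc L₂ X₂) (p₁ : ℕ+ → X → X₁)
    (p₂ : ℕ+ → X → X₂) (h₁ : ∀ k, Measurable (p₁ k)) (h₂ : ∀ k, Measurable (p₂ k)) :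
    Euc (L₁.sum L₂) X where
  peon := fun q => match q with
    | ⟨n, Sum.inl r⟩ => fun π =>
      {z | (fun A : Idx (Fin n) => p₁ (levQ π A) (z A)) ∈ N₁.peon ⟨n, r⟩ π}
    | ⟨n, Sum.inr r⟩ => fun π =>
      {z | (fun A : Idx (Fin n) => p₂ (levQ π A) (z A)) ∈ N₂.peon ⟨n, r⟩ π}
  meas := by
    rintro ⟨n, r | r⟩ π
    · have hm : Measurable (fun (z : Idx (Fin n) → X) (A : Idx (Fin n)) => p₁ (levQ π A) (z A)) :=
        measurable_pi_lambda _ fun A => (h₁ _).comp (measurable_pi_apply A)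
      exact hm (N₁.meas ⟨n, r⟩ π)
    · have hm : Measurable (fun (z : Idx (Fin n) → X) (A : Idx (Fin n)) => p₂ (levQ π A) (z A)) :=
        measurable_pi_lambda _ fun A => (h₂ _).comp (measurable_pi_apply A)
      exact hm (N₂.meas ⟨n, r⟩ π)

lemma Euc.comb_arr (N₁ : Euc L₁ X₁) (N₂ : Euc L₂ X₂) (p₁ : ℕ+ → X → X₁)
    (p₂ : ℕ+ → X → X₂) (h₁ : ∀ k, Measurable (p₁ k)) (h₂ : ∀ k, Measurable (p₂ k))
    (ζ : Idx ℕ → X) :
    (Euc.comb N₁ N₂ p₁ p₂ h₁ h₂).arr ζ =
      join (N₁.arr (fun A => p₁ (lev A) (ζ A)), N₂.arr (fun A => p₂ (lev A) (ζ A))) := by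
  funext q a
  rcases q with ⟨n, r | r⟩
  · change ((fun A : Idx (Fin n) => p₁ (levQ (Setoid.ker a) A) (ζ (img a A))) ∈
      N₁.peon ⟨n, r⟩ (Setoid.ker a)) = ((fun A : Idx (Fin n) => p₁ (lev (img a A)) (ζ (img a A))) ∈
      N₁.peon ⟨n, r⟩ (Setoid.ker a))
    simp only [lev_img]
  · change ((fun A : Idx (Fin n) => p₂ (levQ (Setoid.ker a) A) (ζ (img a A))) ∈
      N₂.peon ⟨n, r⟩ (Setoid.ker a)) = ((fun A : Idx (Fin n) => p₂ (lev (img a A)) (ζ (img a A))) ∈
      N₂.peon ⟨n, r⟩ (Setoid.ker a))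
    simp only [lev_img]

/-- The combined structure is a `(T₁ ∪ T₂)`-on, and its law is a coupling. -/
theorem comb_isCoupling [L₁.IsRelational] [L₂.IsRelational] {T₁ : L₁.Theory} {T₂ : L₂.Theory}
    [StandardBorelSpace X] (μ : Measure X) [IsProbabilityMeasure μ] (μ₁ : Measure X₁)
    [IsProbabilityMeasure μ₁] (μ₂ : Measure X₂) [IsProbabilityMeasure μ₂]
    (N₁ : Euc L₁ X₁) (N₂ : Euc L₂ X₂) (p₁ : ℕ+ → X → X₁) (p₂ : ℕ+ → X → X₂)
    (h₁ : ∀ k, Measurable (p₁ k)) (h₂ : ∀ k, Measurable (p₂ k))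
    (e₁ : ∀ k, μ.map (p₁ k) = μ₁) (e₂ : ∀ k, μ.map (p₂ k) = μ₂)
    (t₁ : N₁.IsTon μ₁ T₁) (t₂ : N₂.IsTon μ₂ T₂) :
    IsCoupling T₁ T₂ (N₁.law μ₁) (N₂.law μ₂) ((Euc.comb N₁ N₂ p₁ p₂ h₁ h₂).law μ) := by
  have l₁ := iid_map_lev μ μ₁ p₁ h₁ e₁
  have l₂ := iid_map_lev μ μ₂ p₂ h₂ e₂
  have m₁ := measurable_lev (X := X) p₁ h₁
  have m₂ := measurable_lev (X := X) p₂ h₂
  refine ⟨⟨X, inferInstance, inferInstance, μ, inferInstance, _, ?_, rfl⟩, ?_, ?_⟩
  · have a₁ : ∀ᵐ ζ ∂(iid μ), (N₁.arr (fun A => p₁ (lev A) (ζ A))).Models T₁ := by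
      have : ∀ᵐ θ ∂((iid μ).map (fun ζ A => p₁ (lev A) (ζ A))), (N₁.arr θ).Models T₁ := by
        rw [l₁]
        exact t₁
      exact ae_of_ae_map m₁.aemeasurable this
    have a₂ : ∀ᵐ ζ ∂(iid μ), (N₂.arr (fun A => p₂ (lev A) (ζ A))).Models T₂ := by
      have : ∀ᵐ θ ∂((iid μ).map (fun ζ A => p₂ (lev A) (ζ A))), (N₂.arr θ).Models T₂ := by
        rw [l₂]
        exact t₂
      exact ae_of_ae_map m₂.aemeasurable this
    filter_upwards [a₁, a₂] with ζ z₁ z₂
    rw [Euc.comb_arr]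
    exact join_models z₁ z₂
  · unfold Euc.law
    rw [Measure.map_map measurable_redL (Euc.measurable_arr _), ← l₁,
      Measure.map_map N₁.measurable_arr m₁]
    congr 1
    funext ζ
    simp only [Function.comp_apply, Euc.comb_arr, redL_join]
  · unfold Euc.law
    rw [Measure.map_map measurable_redR (Euc.measurable_arr _), ← l₂,
      Measure.map_map N₂.measurable_arr m₂]
    congr 1
    funext ζ
    simp only [Function.comp_apply, Euc.comb_arr, redR_join]

/-- The combined structure over a product space with product law represents the independent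
coupling. -/
theorem comb_law_prod (μ₁ : Measure X₁) [IsProbabilityMeasure μ₁] (μ₂ : Measure X₂)
    [IsProbabilityMeasure μ₂] (N₁ : Euc L₁ X₁) (N₂ : Euc L₂ X₂) :
    (Euc.comb N₁ N₂ (fun _ => Prod.fst) (fun _ => Prod.snd) (fun _ => measurable_fst)
      (fun _ => measurable_snd)).law (μ₁.prod μ₂) = indepCoupling (N₁.law μ₁) (N₂.law μ₂) := by
  unfold indepCoupling Euc.law
  rw [Measure.map_prod_map _ _ N₁.measurable_arr N₂.measurable_arr, ← iid_map_unzip,
    Measure.map_map (N₁.measurable_arr.prodMap N₂.measurable_arr) measurable_unzip,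
    Measure.map_map measurable_join
      ((N₁.measurable_arr.prodMap N₂.measurable_arr).comp measurable_unzip)]
  congr 1
  funext ζ
  rw [Euc.comb_arr]
  rfl

/-- What unique coupleability says about a combined structure. -/
theorem uniq_comb [L₁.IsRelational] [L₂.IsRelational] {T₁ : L₁.Theory} {T₂ : L₂.Theory}
    [StandardBorelSpace X] (μ : Measure X) [IsProbabilityMeasure μ] (μ₁ : Measure X₁)
    [IsProbabilityMeasure μ₁] (μ₂ : Measure X₂) [IsProbabilityMeasure μ₂]
    (N₁ : Euc L₁ X₁) (N₂ : Euc L₂ X₂) (p₁ : ℕ+ → X → X₁) (p₂ : ℕ+ → X → X₂)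
    (h₁ : ∀ k, Measurable (p₁ k)) (h₂ : ∀ k, Measurable (p₂ k))
    (e₁ : ∀ k, μ.map (p₁ k) = μ₁) (e₂ : ∀ k, μ.map (p₂ k) = μ₂)
    (t₁ : N₁.IsTon μ₁ T₁) (t₂ : N₂.IsTon μ₂ T₂)
    (hu : UniquelyCoupleable T₁ T₂ (N₁.law μ₁) (N₂.law μ₂)) :
    (iid μ).map (fun ζ => (N₁.arr (fun A => p₁ (lev A) (ζ A)),
      N₂.arr (fun A => p₂ (lev A) (ζ A)))) = (N₁.law μ₁).prod (N₂.law μ₂) := by
  have h := hu _ (comb_isCoupling μ μ₁ μ₂ N₁ N₂ p₁ p₂ h₁ h₂ e₁ e₂ t₁ t₂)
  have m₁ := measurable_lev (X := X) p₁ h₁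
  have m₂ := measurable_lev (X := X) p₂ h₂
  have mr : Measurable (fun K : Str (L₁.sum L₂) => (redL K, redR K)) :=
    measurable_redL.prodMk measurable_redR
  have h2 := congrArg (fun m => m.map (fun K : Str (L₁.sum L₂) => (redL K, redR K))) h
  simp only [indepCoupling, Euc.law] at h2
  rw [Measure.map_map mr (Euc.measurable_arr _), Measure.map_map mr measurable_join] at h2
  have e3 : ((fun K : Str (L₁.sum L₂) => (redL K, redR K)) ∘ join) = id := by
    funext K
    rfl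
  rw [e3, Measure.map_id] at h2
  unfold Euc.law
  rw [← h2]
  congr 1
  funext ζ
  simp only [Function.comp_apply, Euc.comb_arr, redL_join, redR_join]

lemma oct_comp_arr (N : Euc L X) (l : List (ℕ × ℕ)) (F : Str L → ℝ) :
    oct (actC X) l (fun θ => F (N.arr θ)) = fun θ => oct (actS L) l F (N.arr θ) := by
  induction l generalizing F with
  | nil => rfl
  | cons p l ih =>
    simp only [oct]
    rw [← ih]
    congr 1
    funext θ
    change F (N.arr θ) * F (N.arr (permC _ θ)) = F (N.arr θ) * F (permS _ (N.arr θ))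
    rw [N.arr_permC]

/-- Positivity of the octahedral average, from a nonvanishing test integral. -/
lemma oct_pos (μ : Measure X) [IsProbabilityMeasure μ] (N : Euc L X) (V : Finset ℕ)
    (F : Str L → ℝ) (mF : Measurable F) (bF : ∃ M, ∀ K, |F K| ≤ M) (hF : DetV V F) (A : Idx ℕ)
    (e : X → ℝ) (me : Measurable e) (be : ∀ x, |e x| ≤ 1) (D : Finset (Idx ℕ))
    (t : Idx ℕ → Set X) (ht : ∀ B, MeasurableSet (t B))
    (hD : ∀ B ∈ D, (lev B : ℕ) ≤ (lev A : ℕ) ∧ B ≠ A)
    (h0 : ∫ θ, F (N.arr θ) * e (θ A) * box t D θ ∂(iid μ) ≠ 0) (l : List (ℕ × ℕ))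
    (hnd : (l.map Prod.fst).Nodup) (hA : (l.map Prod.fst).toFinset = A.1)
    (hnd' : (l.map Prod.snd).Nodup)
    (hW' : ∀ p ∈ l, p.2 ∉ V ∪ A.1 ∪ D.biUnion fun B => B.1) :
    0 < ∫ θ, oct (actC X) l (fun θ => F (N.arr θ) * e (θ A)) θ ∂(iid μ) := by
  classical
  set W : Finset ℕ := V ∪ A.1 ∪ D.biUnion fun B => B.1 with hWdef
  have hγ : ∀ σ, (iid μ).map ((actC X).T σ) = iid μ := fun σ => iid_permC μ σ
  have hmem : ∀ p ∈ l, p.1 ∈ A.1 := by
    intro p hp
    rw [← hA, List.mem_toFinset]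
    exact List.mem_map_of_mem hp
  have hW : ∀ p ∈ l, p.1 ∈ W := fun p hp => by
    rw [hWdef]
    exact Finset.mem_union_left _ (Finset.mem_union_right _ (hmem p hp))
  have hl : l ≠ [] := by
    rintro rfl
    have := A.2
    rw [← hA] at this
    simp at this
  have mE : Measurable (fun θ : Idx ℕ → X => F (N.arr θ) * e (θ A)) :=
    (mF.comp N.measurable_arr).mul (me.comp (measurable_pi_apply A))
  have bE : ∃ M, ∀ θ : Idx ℕ → X, |F (N.arr θ) * e (θ A)| ≤ M := by
    obtain ⟨M, hM⟩ := bF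
    refine ⟨M * 1, fun θ => ?_⟩
    rw [abs_mul]
    exact mul_le_mul (hM _) (be _) (abs_nonneg _) ((abs_nonneg _).trans (hM (N.arr θ)))
  have sE : Supp (actC X) W (fun θ : Idx ℕ → X => F (N.arr θ) * e (θ A)) := by
    intro σ hσ θ
    have c1 : F (N.arr (permC σ θ)) = F (N.arr θ) := by
      rw [N.arr_permC]
      refine hF _ _ fun p a ha => ?_
      simp only [permS]
      congr 1
      funext i
      exact hσ _ (by
        rw [hWdef]
        exact Finset.mem_union_left _ (Finset.mem_union_left _ (ha i)))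
    have c2 : (permC σ θ) A = θ A := by
      simp only [permC]
      rw [map_fix' hσ (B := A)]
      rw [hWdef]
      exact (Finset.subset_union_right).trans Finset.subset_union_left
    change F (N.arr (permC σ θ)) * e ((permC σ θ) A) = F (N.arr θ) * e (θ A)
    rw [c1, c2]
  have hnn := oct_nonneg (actC X) (iid μ) hγ W l hl hnd hnd' hW hW' _ mE bE sE
  refine lt_of_le_of_ne hnn fun hzero => h0 ?_
  -- choose a vertex of `A` missed by every `B ∈ D`
  have hmiss : ∀ B : Idx ℕ, ∃ a, B ∈ D → a ∈ A.1 ∧ a ∉ B.1 := by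
    intro B
    by_cases hB : B ∈ D
    · have h1 := hD B hB
      have : ¬ A.1 ⊆ B.1 := by
        intro hsub
        have hc : B.1.card ≤ A.1.card := h1.1
        have := Finset.eq_of_subset_of_card_le hsub hc
        exact h1.2 (Subtype.ext this.symm)
      obtain ⟨a, ha, ha'⟩ := Finset.not_subset.1 this
      exact ⟨a, fun _ => ⟨ha, ha'⟩⟩
    · exact ⟨0, fun h => absurd h hB⟩
  choose c hc using hmiss
  set u : ℕ → (Idx ℕ → X) → ℝ := fun a θ => box t (D.filter fun B => c B = a) θ with hu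
  have su : ∀ p ∈ l, Supp (actC X) (W.erase p.1) (u p.1) := by
    intro p hp σ hσ θ
    simp only [hu, box]
    refine Finset.prod_congr rfl fun B hB => ?_
    have hBD := (Finset.mem_filter.1 hB).1
    have hcB := (Finset.mem_filter.1 hB).2
    have : ((actC X).T σ θ) B = θ B := by
      change θ (Idx.map σ.toEmbedding B) = θ B
      rw [map_fix' hσ]
      intro x hx
      rw [Finset.mem_erase]
      refine ⟨?_, ?_⟩
      · rintro rfl
        exact (hc B hBD).2 (hcB ▸ hx)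
      · rw [hWdef]
        exact Finset.mem_union_right _ (Finset.mem_biUnion.2 ⟨B, hBD, hx⟩)
    rw [this]
  have hg := gcs (actC X) (iid μ) hγ W l hnd hnd' hW hW' _ mE bE sE u
    (fun p _ => measurable_box ht _) (fun p _ => ⟨1, fun z => abs_box_le _ _ _⟩) su hzero.symm
  have e1 : ∀ z : Idx ℕ → X, (l.map (fun p => u p.1 z)).prod = box t D z := by
    intro z
    have : (l.map (fun p => u p.1 z)) = (l.map Prod.fst).map (fun a => u a z) := by
      rw [List.map_map]
      rfl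
    rw [this, ← List.prod_toFinset _ hnd, hA]
    simp only [hu, box]
    exact Finset.prod_fiberwise_of_maps_to (fun B hB => (hc B hB).1) _
  simp only [e1] at hg
  exact hg

lemma depOn_arr (N : Euc L X) {V : Finset ℕ} {F : Str L → ℝ} (hF : DetV V F) :
    DepOn (below V) (fun θ => F (N.arr θ)) := by
  intro x y hxy
  refine hF _ _ fun p a ha => ?_
  have : (fun A : Idx (Fin p.1) => x (img a A)) = fun A : Idx (Fin p.1) => y (img a A) := by
    funext A
    refine hxy _ (mem_below.2 ?_)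
    intro z hz
    simp only [img, Finset.mem_image] at hz
    obtain ⟨i, _, rfl⟩ := hz
    exact ha i
  simp only [Euc.arr, this]

/-- Unique coupleability is contradicted by positive octahedral averages at the same level. -/
theorem level_contradiction [L₁.IsRelational] [L₂.IsRelational] {T₁ : L₁.Theory}
    {T₂ : L₂.Theory} [StandardBorelSpace X₁] [StandardBorelSpace X₂] (μ₁ : Measure X₁)
    [IsProbabilityMeasure μ₁] (μ₂ : Measure X₂) [IsProbabilityMeasure μ₂] (N₁ : Euc L₁ X₁)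
    (N₂ : Euc L₂ X₂) (t₁ : N₁.IsTon μ₁ T₁) (t₂ : N₂.IsTon μ₂ T₂)
    (hu : UniquelyCoupleable T₁ T₂ (N₁.law μ₁) (N₂.law μ₂))
    (F : Str L₁ → ℝ) (mF : Measurable F) (bF : ∃ M, ∀ K, |F K| ≤ M) (V : Finset ℕ)
    (hF : DetV V F) (G : Str L₂ → ℝ) (mG : Measurable G) (bG : ∃ M, ∀ K, |G K| ≤ M)
    (V' : Finset ℕ) (hG : DetV V' G) (A : Idx ℕ) (e : X₁ → ℝ) (me : Measurable e)
    (be : ∀ x, |e x| ≤ 1) (ze : ∫ x, e x ∂μ₁ = 0) (e' : X₂ → ℝ) (me' : Measurable e')
    (be' : ∀ x, |e' x| ≤ 1) (ze' : ∫ x, e' x ∂μ₂ = 0) (l : List (ℕ × ℕ)) (hl : Good l)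
    (hA : ∀ p ∈ l, p.1 ∈ A.1 ∧ p.2 ∉ A.1) (hV : ∀ p ∈ l, p.2 ∉ V) (hV' : ∀ p ∈ l, p.2 ∉ V')
    (hVV : V ∩ V' ⊆ A.1)
    (pos : 0 < ∫ θ, oct (actC X₁) l (fun θ => F (N₁.arr θ) * e (θ A)) θ ∂(iid μ₁))
    (pos' : 0 < ∫ θ, oct (actC X₂) l (fun θ => G (N₂.arr θ) * e' (θ A)) θ ∂(iid μ₂)) :
    False := by
  classical
  set F1 := oct (actS L₁) l F with hF1
  set G1 := oct (actS L₂) l G with hG1
  set S := octF l {A} with hS
  have mF1 : Measurable F1 := measurable_oct _ _ mF
  have mG1 : Measurable G1 := measurable_oct _ _ mG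
  obtain ⟨M, hM⟩ : ∃ M, ∀ K, |F1 K| ≤ M := bdd_oct _ _ bF
  obtain ⟨M', hM'⟩ : ∃ M, ∀ K, |G1 K| ≤ M := bdd_oct _ _ bG
  have hA1 : ∀ B ∈ ({A} : Finset (Idx ℕ)), ∀ p ∈ l, p.1 ∈ B.1 ∧ p.2 ∉ B.1 := by
    intro B hB p hp
    rw [Finset.mem_singleton.1 hB]
    exact hA p hp
  have o1 : oct (actC X₁) l (fun θ => F (N₁.arr θ) * e (θ A)) =
      fun θ => F1 (N₁.arr θ) * ∏ B ∈ S, e (θ B) := by
    rw [oct_mul, oct_comp_arr]
    have := oct_prod l hl {A} e hA1
    simp only [Finset.prod_singleton] at this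
    rw [this]
  have o2 : oct (actC X₂) l (fun θ => G (N₂.arr θ) * e' (θ A)) =
      fun θ => G1 (N₂.arr θ) * ∏ B ∈ S, e' (θ B) := by
    rw [oct_mul, oct_comp_arr]
    have := oct_prod l hl {A} e' hA1
    simp only [Finset.prod_singleton] at this
    rw [this]
  rw [o1] at pos
  rw [o2] at pos'
  set m : ℕ := (lev A : ℕ) with hm
  set D := octF l (below (V ∪ A.1)) with hD
  set D' := octF l (below (V' ∪ A.1)) with hD'
  have dF : DepOn D (fun θ => F1 (N₁.arr θ)) := by
    have h1 : DepOn (below (V ∪ A.1)) (fun θ => F (N₁.arr θ)) :=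
      (depOn_arr N₁ hF).mono fun B hB => mem_below.2
        ((mem_below.1 hB).trans Finset.subset_union_left)
    have h2 := oct_depOn l _ h1
    rwa [oct_comp_arr] at h2
  have dG : DepOn D' (fun θ => G1 (N₂.arr θ)) := by
    have h1 : DepOn (below (V' ∪ A.1)) (fun θ => G (N₂.arr θ)) :=
      (depOn_arr N₂ hG).mono fun B hB => mem_below.2
        ((mem_below.1 hB).trans Finset.subset_union_left)
    have h2 := oct_depOn l _ h1
    rwa [oct_comp_arr] at h2
  have common : ∀ B ∈ D, B ∈ D' → (lev B : ℕ) = m → B ∈ S := by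
    refine octF_common l hl _ _ _ m ?_ ?_ ?_ ?_
    · intro B hB p hp h
      rcases Finset.mem_union.1 (mem_below.1 hB h) with h | h
      · exact hV p hp h
      · exact (hA p hp).2 h
    · intro B hB p hp h
      rcases Finset.mem_union.1 (mem_below.1 hB h) with h | h
      · exact hV' p hp h
      · exact (hA p hp).2 h
    · intro B hB hB' hlev
      rw [Finset.mem_singleton]
      have hsub : B.1 ⊆ A.1 := by
        intro x hx
        rcases Finset.mem_union.1 (mem_below.1 hB hx) with h | h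
        · rcases Finset.mem_union.1 (mem_below.1 hB' hx) with h' | h'
          · exact hVV (Finset.mem_inter.2 ⟨h, h'⟩)
          · exact h'
        · exact h
      have hc : A.1.card ≤ B.1.card := le_of_eq hlev.symm
      exact Subtype.ext (Finset.eq_of_subset_of_card_le hsub hc)
    · intro B hB p hp
      exact (hA1 B hB p hp).1
  set R := (D ∪ D').filter fun B => (lev B : ℕ) = m with hR
  set a : Finset (Idx ℕ) → ℝ := fun S' => ∫ x, F1 (N₁.arr x) * ∏ B ∈ S', e (x B) ∂(iid μ₁)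
    with ha
  set b : Finset (Idx ℕ) → ℝ := fun S' => ∫ y, G1 (N₂.arr y) * ∏ B ∈ S', e' (y B) ∂(iid μ₂)
    with hb
  have vanish : ∀ S' ∈ R.powerset, ¬ S' ⊆ S → a S' * b S' = 0 := by
    intro S' hS' hnot
    obtain ⟨B, hB, hBS⟩ := Finset.not_subset.1 hnot
    have hBR := Finset.mem_powerset.1 hS' hB
    have hlev := (Finset.mem_filter.1 hBR).2
    by_cases h1 : B ∈ D
    · have h2 : B ∉ D' := fun h2 => hBS (common B h1 h2 hlev)
      have : b S' = 0 := integral_vanish μ₂ me' ze' D' (mG1.comp N₂.measurable_arr) dG S' hB h2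
      rw [this, mul_zero]
    · have : a S' = 0 := integral_vanish μ₁ me ze D (mF1.comp N₁.measurable_arr) dF S' hB h1
      rw [this, zero_mul]
  -- unique coupleability for every `c`
  have ident : ∀ c : ℝ, 0 ≤ c → c ≤ 1 → ∑ S' ∈ R.powerset, c ^ S'.card * (a S' * b S') =
      (∫ K, F1 K ∂(N₁.law μ₁)) * ∫ K, G1 K ∂(N₂.law μ₂) := by
    intro c hc hc'
    have ilam : IsProbabilityMeasure (lam μ₁ μ₂ e e' c) :=
      lam_prob μ₁ μ₂ me me' be be' ze ze' hc hc'
    have q₁ : ∀ k : ℕ+, Measurable (fun z : (X₁ × X₂) × (X₁ × X₂) =>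
        if (k : ℕ) = m then z.1.1 else z.2.1) := by
      intro k
      split_ifs
      · exact measurable_fst.comp measurable_fst
      · exact measurable_fst.comp measurable_snd
    have q₂ : ∀ k : ℕ+, Measurable (fun z : (X₁ × X₂) × (X₁ × X₂) =>
        if (k : ℕ) = m then z.1.2 else z.2.2) := by
      intro k
      split_ifs
      · exact measurable_snd.comp measurable_fst
      · exact measurable_snd.comp measurable_snd
    have r₁ : ∀ k : ℕ+, ((lam μ₁ μ₂ e e' c).prod (μ₁.prod μ₂)).map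
        (fun z : (X₁ × X₂) × (X₁ × X₂) => if (k : ℕ) = m then z.1.1 else z.2.1) = μ₁ := by
      intro k
      split_ifs
      · have : (fun z : (X₁ × X₂) × (X₁ × X₂) => z.1.1) = Prod.fst ∘ Prod.fst := rfl
        rw [this, ← Measure.map_map measurable_fst measurable_fst, Measure.map_fst_prod]
        simp [lam_fst μ₁ μ₂ me me' be be' ze ze' hc hc']
      · have : (fun z : (X₁ × X₂) × (X₁ × X₂) => z.2.1) = Prod.fst ∘ Prod.snd := rfl
        rw [this, ← Measure.map_map measurable_fst measurable_snd, Measure.map_snd_prod]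
        simp
    have r₂ : ∀ k : ℕ+, ((lam μ₁ μ₂ e e' c).prod (μ₁.prod μ₂)).map
        (fun z : (X₁ × X₂) × (X₁ × X₂) => if (k : ℕ) = m then z.1.2 else z.2.2) = μ₂ := by
      intro k
      split_ifs
      · have : (fun z : (X₁ × X₂) × (X₁ × X₂) => z.1.2) = Prod.snd ∘ Prod.fst := rfl
        rw [this, ← Measure.map_map measurable_snd measurable_fst, Measure.map_fst_prod]
        simp [lam_snd μ₁ μ₂ me me' be be' ze ze' hc hc']
      · have : (fun z : (X₁ × X₂) × (X₁ × X₂) => z.2.2) = Prod.snd ∘ Prod.snd := rfl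
        rw [this, ← Measure.map_map measurable_snd measurable_snd, Measure.map_snd_prod]
        simp
    have h := uniq_comb ((lam μ₁ μ₂ e e' c).prod (μ₁.prod μ₂)) μ₁ μ₂ N₁ N₂
      (fun k z => if (k : ℕ) = m then z.1.1 else z.2.1)
      (fun k z => if (k : ℕ) = m then z.1.2 else z.2.2) q₁ q₂ r₁ r₂ t₁ t₂ hu
    have mK : Measurable (fun K : Str L₁ × Str L₂ => F1 K.1 * G1 K.2) :=
      (mF1.comp measurable_fst).mul (mG1.comp measurable_snd)
    have mmap : Measurable (fun ζ : Idx ℕ → (X₁ × X₂) × (X₁ × X₂) =>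
        (N₁.arr (fun A => if (lev A : ℕ) = m then (ζ A).1.1 else (ζ A).2.1),
          N₂.arr (fun A => if (lev A : ℕ) = m then (ζ A).1.2 else (ζ A).2.2))) :=
      (N₁.measurable_arr.comp (measurable_lev
        (fun (k : ℕ+) (z : (X₁ × X₂) × (X₁ × X₂)) => if (k : ℕ) = m then z.1.1 else z.2.1)
        q₁)).prodMk
      (N₂.measurable_arr.comp (measurable_lev
        (fun (k : ℕ+) (z : (X₁ × X₂) × (X₁ × X₂)) => if (k : ℕ) = m then z.1.2 else z.2.2) q₂))
    have p := integral_pert μ₁ μ₂ me me' be be' ze ze' hc hc' m D D'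
      (mF1.comp N₁.measurable_arr) (mG1.comp N₂.measurable_arr) ⟨M, fun x => hM _⟩
      ⟨M', fun y => hM' _⟩ dF dG
    rw [← integral_prod_mul, ← h, integral_map mmap.aemeasurable mK.aestronglyMeasurable]
    exact p.symm
  -- polynomial identity
  set Q : Polynomial ℝ := ∑ S' ∈ R.powerset, Polynomial.C (a S' * b S') * Polynomial.X ^ S'.card
    with hQ
  set κ : ℝ := (∫ K, F1 K ∂(N₁.law μ₁)) * ∫ K, G1 K ∂(N₂.law μ₂) with hκ
  have hQC : Q = Polynomial.C κ := by
    refine Polynomial.eq_of_infinite_eval_eq _ _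
      (Set.Infinite.mono (s := Set.Icc (0 : ℝ) 1) ?_ (Set.Icc_infinite zero_lt_one))
    intro c hc
    simp only [Set.mem_setOf_eq, hQ, Polynomial.eval_finset_sum, Polynomial.eval_mul,
      Polynomial.eval_C, Polynomial.eval_pow, Polynomial.eval_X]
    rw [← ident c hc.1 hc.2]
    exact Finset.sum_congr rfl fun S' _ => mul_comm _ _
  have hAS : A ∈ S := subset_octF l _ (Finset.mem_singleton_self A)
  have hScard : S.card ≠ 0 := Finset.card_ne_zero_of_mem hAS
  have hSR : S ∈ R.powerset := by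
    rw [Finset.mem_powerset]
    intro B hB
    rw [hR, Finset.mem_filter]
    refine ⟨Finset.mem_union_left _ (octF_mono l ?_ hB), lev_octF l {A} m ?_ B hB⟩
    · intro B hB
      rw [Finset.mem_singleton.1 hB, mem_below]
      exact Finset.subset_union_right
    · intro B hB
      rw [Finset.mem_singleton.1 hB]
  have hcoef := congrArg (fun P => Polynomial.coeff P S.card) hQC
  simp only [hQ, Polynomial.finset_sum_coeff, Polynomial.coeff_C_mul_X_pow,
    Polynomial.coeff_C, hScard, if_false] at hcoef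
  rw [Finset.sum_eq_single_of_mem S hSR] at hcoef
  · simp only [if_true] at hcoef
    exact (mul_pos pos pos').ne' hcoef
  · intro S' hS' hne
    split_ifs with hcard
    · refine vanish S' hS' fun hsub => hne ?_
      exact Finset.eq_of_subset_of_card_le hsub hcard.le
    · rfl

/-- If the averages over the levels `> ℓ + 1` and `> ℓ` differ, then there are octahedral averages
of positive integral, in all sufficiently free positions. -/
lemma exists_oct_pos (μ : Measure X) [IsProbabilityMeasure μ] (N : Euc L X) (ℓ : ℕ)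
    (V : Finset ℕ) (F : Str L → ℝ) (mF : Measurable F) (bF : ∃ M, ∀ K, |F K| ≤ M)
    (hF : DetV V F)
    (h : ¬ (avg μ (ℓ + 1) (fun θ => F (N.arr θ)) =ᵐ[iid μ] avg μ ℓ (fun θ => F (N.arr θ)))) :
    ∃ (A : Idx ℕ) (e : X → ℝ) (W : Finset ℕ), (lev A : ℕ) = ℓ + 1 ∧ Measurable e ∧
      (∀ x, |e x| ≤ 1) ∧ ∫ x, e x ∂μ = 0 ∧ V ⊆ W ∧ A.1 ⊆ W ∧
      ∀ l : List (ℕ × ℕ), (l.map Prod.fst).Nodup → (l.map Prod.fst).toFinset = A.1 →
        (l.map Prod.snd).Nodup → (∀ p ∈ l, p.2 ∉ W) →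
        0 < ∫ θ, oct (actC X) l (fun θ => F (N.arr θ) * e (θ A)) θ ∂(iid μ) := by
  obtain ⟨M, hM⟩ := bF
  have hnot : ¬ Irr μ (ℓ + 1) (fun θ => F (N.arr θ)) := fun hi =>
    h (avg_eq_of_irr μ ℓ (mF.comp N.measurable_arr) (M := M) (fun x => hM _) hi)
  unfold Irr at hnot
  push Not at hnot
  obtain ⟨A, U, D, t, hlev, hU, ht, hD, hne⟩ := hnot
  have be : ∀ x, |ind U x - μ.real U| ≤ 1 := by
    intro x
    have h1 := ind_nonneg U x
    have h2 := ind_le_one U x
    have h3 : 0 ≤ μ.real U := measureReal_nonneg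
    have h4 : μ.real U ≤ 1 := measureReal_le_one
    rw [abs_le]
    constructor <;> linarith
  have me : Measurable (fun x => ind U x - μ.real U) := (measurable_ind hU).sub measurable_const
  refine ⟨A, fun x => ind U x - μ.real U, V ∪ A.1 ∪ D.biUnion fun B => B.1, hlev, me, be, ?_,
    ?_, ?_, ?_⟩
  · rw [integral_sub (integrable_of_bdd _ (measurable_ind hU) (abs_ind_le U))
      (integrable_const _), integral_ind μ hU]
    simp
  · exact Finset.subset_union_left.trans Finset.subset_union_left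
  · exact Finset.subset_union_right.trans Finset.subset_union_left
  · intro l hnd hA hnd' hW'
    refine oct_pos μ N V F mF ⟨M, hM⟩ hF A _ me be D t ht (fun B hB => ?_) hne l hnd hA hnd' hW'
    rw [hlev]
    exact hD B hB

/-- **Lemma E1.**  If two limit objects are uniquely coupleable, then every level is irrelevant
for one of them. -/
theorem level_dichotomy [L₁.IsRelational] [L₂.IsRelational] {T₁ : L₁.Theory}
    {T₂ : L₂.Theory} [StandardBorelSpace X₁] [StandardBorelSpace X₂] (μ₁ : Measure X₁)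
    [IsProbabilityMeasure μ₁] (μ₂ : Measure X₂) [IsProbabilityMeasure μ₂] (N₁ : Euc L₁ X₁)
    (N₂ : Euc L₂ X₂) (t₁ : N₁.IsTon μ₁ T₁) (t₂ : N₂.IsTon μ₂ T₂)
    (hu : UniquelyCoupleable T₁ T₂ (N₁.law μ₁) (N₂.law μ₂)) (ℓ : ℕ) :
    (∀ (V : Finset ℕ) (F : Str L₁ → ℝ), Measurable F → (∃ M, ∀ K, |F K| ≤ M) → DetV V F →
      avg μ₁ (ℓ + 1) (fun θ => F (N₁.arr θ)) =ᵐ[iid μ₁] avg μ₁ ℓ (fun θ => F (N₁.arr θ))) ∨
    (∀ (V : Finset ℕ) (F : Str L₂ → ℝ), Measurable F → (∃ M, ∀ K, |F K| ≤ M) → DetV V F →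
      avg μ₂ (ℓ + 1) (fun θ => F (N₂.arr θ)) =ᵐ[iid μ₂] avg μ₂ ℓ (fun θ => F (N₂.arr θ))) := by
  classical
  by_contra hcon
  push Not at hcon
  obtain ⟨⟨V, F, mF, bF, hF, hne⟩, ⟨V', G, mG, bG, hG, hne'⟩⟩ := hcon
  obtain ⟨A, e, W, hlev, me, be, ze, hVW, hAW, pos⟩ :=
    exists_oct_pos μ₁ N₁ ℓ V F mF bF hF hne
  obtain ⟨A', e', W', hlev', me', be', ze', hVW', hAW', pos'⟩ :=
    exists_oct_pos μ₂ N₂ ℓ V' G mG bG hG hne'
  -- bounds for the vertices
  obtain ⟨n, hn⟩ : ∃ n : ℕ, ∀ x ∈ W, x < n := by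
    obtain ⟨n, hn⟩ := W.exists_nat_subset_range
    exact ⟨n, fun x hx => Finset.mem_range.1 (hn hx)⟩
  obtain ⟨n', hn'⟩ : ∃ n : ℕ, ∀ x ∈ W', x < n := by
    obtain ⟨n, hn⟩ := W'.exists_nat_subset_range
    exact ⟨n, fun x hx => Finset.mem_range.1 (hn hx)⟩
  -- a bijection from `A'` to `A`
  have hcard : A'.1.card = A.1.card := hlev'.trans hlev.symm
  let φ : A'.1 ≃ A.1 := Finset.equivOfCardEq hcard
  set h : ℕ → ℕ := fun x => if hx : x ∈ A'.1 then (φ ⟨x, hx⟩ : ℕ) else x + n with hh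
  have hin : ∀ x (hx : x ∈ A'.1), h x = φ ⟨x, hx⟩ := fun x hx => by simp only [hh, hx, dif_pos]
  have hout : ∀ x, x ∉ A'.1 → h x = x + n := fun x hx => by
    simp only [hh, hx, dif_neg, not_false_eq_true]
  have hAlt : ∀ x (hx : x ∈ A'.1), h x ∈ A.1 := fun x hx => by
    rw [hin x hx]
    exact (φ ⟨x, hx⟩).2
  have hinj : Function.Injective h := by
    intro x y hxy
    by_cases hx : x ∈ A'.1
    · by_cases hy : y ∈ A'.1
      · rw [hin x hx, hin y hy] at hxy
        have := φ.injective (Subtype.ext hxy)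
        exact congrArg Subtype.val this
      · exfalso
        have h1 := hn _ (hAW (hAlt x hx))
        rw [hxy, hout y hy] at h1
        omega
    · by_cases hy : y ∈ A'.1
      · exfalso
        have h1 := hn _ (hAW (hAlt y hy))
        rw [← hxy, hout x hx] at h1
        omega
      · rw [hout x hx, hout y hy] at hxy
        omega
  -- the list
  set l' : List (ℕ × ℕ) := A'.1.toList.map (fun a => (a, n' + a)) with hl'
  have hmem' : ∀ p ∈ l', p.1 ∈ A'.1 ∧ p.2 = n' + p.1 := by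
    intro p hp
    rw [hl', List.mem_map] at hp
    obtain ⟨a, ha, rfl⟩ := hp
    exact ⟨Finset.mem_toList.1 ha, rfl⟩
  have hfst' : l'.map Prod.fst = A'.1.toList := by
    rw [hl', List.map_map]
    exact List.map_id _
  have hsnd' : l'.map Prod.snd = A'.1.toList.map (fun a => n' + a) := by
    rw [hl', List.map_map]
    rfl
  have hnd1 : (l'.map Prod.fst).Nodup := by
    rw [hfst']
    exact Finset.nodup_toList _
  have hnd2 : (l'.map Prod.snd).Nodup := by
    rw [hsnd']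
    exact (Finset.nodup_toList _).map (fun a b hab => by simpa using hab)
  have hA'eq : (l'.map Prod.fst).toFinset = A'.1 := by
    rw [hfst']
    exact Finset.toList_toFinset _
  have hout' : ∀ p ∈ l', p.2 ∉ W' := by
    intro p hp hW
    have h1 := hn' _ hW
    rw [(hmem' p hp).2] at h1
    omega
  have P' := pos' l' hnd1 hA'eq hnd2 hout'
  -- the permutation
  obtain ⟨σ, hσ⟩ := exists_perm_extend (W' ∪ (l'.map Prod.snd).toFinset) h hinj
  have hσW : ∀ x ∈ W', σ x = h x := fun x hx => hσ x (Finset.mem_union_left _ hx)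
  have hσ2 : ∀ p ∈ l', σ p.2 = n' + p.1 + n := by
    intro p hp
    rw [hσ p.2 (Finset.mem_union_right _ (by
      rw [List.mem_toFinset]
      exact List.mem_map_of_mem hp)), hout, (hmem' p hp).2]
    intro hc
    exact hout' p hp (hAW' hc)
  have hσA : Idx.map σ.toEmbedding A' = A := by
    apply Subtype.ext
    refine Finset.eq_of_subset_of_card_le ?_ ?_
    · intro x hx
      simp only [Idx.map, Finset.mem_map] at hx
      obtain ⟨y, hy, rfl⟩ := hx
      rw [Equiv.toEmbedding_apply, hσW y (hAW' hy)]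
      exact hAlt y hy
    · change A.1.card ≤ (A'.1.map σ.toEmbedding).card
      rw [Finset.card_map, hcard]
  set l : List (ℕ × ℕ) := l'.map (Prod.map σ σ) with hl
  have gen1 : ∀ q : List (ℕ × ℕ), (q.map (Prod.map σ σ)).map Prod.fst =
      (q.map Prod.fst).map σ := by
    intro q
    rw [List.map_map, List.map_map]
    rfl
  have gen2 : ∀ q : List (ℕ × ℕ), (q.map (Prod.map σ σ)).map Prod.snd =
      (q.map Prod.snd).map σ := by
    intro q
    rw [List.map_map, List.map_map]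
    rfl
  have hfst : l.map Prod.fst = (l'.map Prod.fst).map σ := gen1 l'
  have hsnd : l.map Prod.snd = (l'.map Prod.snd).map σ := gen2 l'
  have hndl1 : (l.map Prod.fst).Nodup := by
    rw [hfst]
    exact hnd1.map σ.injective
  have hndl2 : (l.map Prod.snd).Nodup := by
    rw [hsnd]
    exact hnd2.map σ.injective
  have hAeq : (l.map Prod.fst).toFinset = A.1 := by
    rw [← hσA]
    change _ = A'.1.map σ.toEmbedding
    have gen3 : ∀ q : List ℕ, (q.map σ).toFinset = q.toFinset.map σ.toEmbedding := by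
      intro q
      ext x
      rw [List.mem_toFinset, List.mem_map, Finset.mem_map]
      simp only [List.mem_toFinset, Equiv.toEmbedding_apply]
    rw [hfst, ← hA'eq, gen3]
  have hp1 : ∀ p ∈ l, p.1 ∈ A.1 := by
    intro p hp
    rw [← hAeq, List.mem_toFinset]
    exact List.mem_map_of_mem hp
  have hp2 : ∀ p ∈ l, n ≤ p.2 := by
    intro p hp
    rw [hl, List.mem_map] at hp
    obtain ⟨q, hq, rfl⟩ := hp
    simp only [Prod.map_snd]
    rw [hσ2 q hq]
    omega
  have hp2W : ∀ p ∈ l, p.2 ∉ W := by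
    intro p hp hW
    have h1 := hn _ hW
    have h2 := hp2 p hp
    omega
  have P := pos l hndl1 hAeq hndl2 hp2W
  -- transport of the second average
  have P2 : 0 < ∫ θ, oct (actC X₂) l
      (fun θ => (fun K => G (permS σ K)) (N₂.arr θ) * e' (θ A)) θ ∂(iid μ₂) := by
    have e1 : (fun θ : Idx ℕ → X₂ => (fun K => G (permS σ K)) (N₂.arr θ) * e' (θ A)) =
        fun θ => (fun θ => G (N₂.arr θ) * e' (θ A')) ((actC X₂).T σ θ) := by
      funext θ
      change G (permS σ (N₂.arr θ)) * e' (θ A) = G (N₂.arr (permC σ θ)) * e' (permC σ θ A')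
      rw [N₂.arr_permC]
      simp only [permC]
      rw [hσA]
    have ot := oct_transport (actC X₂) σ l' (fun θ => G (N₂.arr θ) * e' (θ A'))
    rw [e1, hl, ot]
    have e2 : ∫ θ, oct (actC X₂) l' (fun θ => G (N₂.arr θ) * e' (θ A')) ((actC X₂).T σ θ)
        ∂(iid μ₂) = ∫ θ, oct (actC X₂) l' (fun θ => G (N₂.arr θ) * e' (θ A')) θ ∂(iid μ₂) := by
      have mh : Measurable (fun θ : Idx ℕ → X₂ => G (N₂.arr θ) * e' (θ A')) :=
        (mG.comp N₂.measurable_arr).mul (me'.comp (measurable_pi_apply A'))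
      conv_rhs => rw [← iid_permC μ₂ σ]
      rw [integral_map (measurable_permC σ).aemeasurable
        (measurable_oct (actC X₂) l' mh).aestronglyMeasurable]
      rfl
    rw [e2]
    exact P'
  refine level_contradiction μ₁ μ₂ N₁ N₂ t₁ t₂ hu F mF bF V hF (fun K => G (permS σ K))
    (mG.comp (measurable_permS σ)) ?_ (V'.map σ.toEmbedding) (detV_permS hG σ) A e me be ze e'
    me' be' ze' l ⟨hndl1, hndl2, ?_⟩ ?_ ?_ ?_ ?_ P P2
  · obtain ⟨M, hM⟩ := bG
    exact ⟨M, fun K => hM _⟩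
  · intro p hp q hq hpq
    have h1 := hn _ (hAW (hp1 p hp))
    have h2 := hp2 q hq
    omega
  · intro p hp
    exact ⟨hp1 p hp, fun hc => hp2W p hp (hAW hc)⟩
  · intro p hp hc
    exact hp2W p hp (hVW hc)
  · intro p hp hc
    rw [hl, List.mem_map] at hp
    obtain ⟨q, hq, rfl⟩ := hp
    rw [Finset.mem_map] at hc
    obtain ⟨x, hx, hxq⟩ := hc
    have : x = q.2 := σ.injective hxq
    exact hout' q hq (hVW' (this ▸ hx))
  · intro x hx
    obtain ⟨hx1, hx2⟩ := Finset.mem_inter.1 hx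
    rw [Finset.mem_map] at hx2
    obtain ⟨y, hy, rfl⟩ := hx2
    rw [Equiv.toEmbedding_apply] at hx1 ⊢
    rw [hσW y (hVW' hy)] at hx1 ⊢
    by_cases hyA : y ∈ A'.1
    · exact hAlt y hyA
    · exfalso
      have h1 := hn _ (hVW hx1)
      rw [hout y hyA] at h1
      omega

/-- product formula for arrays when every level is irrelevant for one of the factors -/
theorem integral_triple [L₁.IsRelational] [L₂.IsRelational] [L'.IsRelational] {T₁ : L₁.Theory}
    {T₂ : L₂.Theory} {T' : L'.Theory} [StandardBorelSpace X] [StandardBorelSpace X₁]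
    [StandardBorelSpace X₂] (μ₁ : Measure X₁) [IsProbabilityMeasure μ₁] (μ₂ : Measure X₂)
    [IsProbabilityMeasure μ₂] (μ : Measure X) [IsProbabilityMeasure μ] (N₁ : Euc L₁ X₁)
    (N₂ : Euc L₂ X₂) (N : Euc L' X) (t₁ : N₁.IsTon μ₁ T₁) (t₂ : N₂.IsTon μ₂ T₂)
    (t : N.IsTon μ T') (u₁ : UniquelyCoupleable T₁ T' (N₁.law μ₁) (N.law μ))
    (u₂ : UniquelyCoupleable T₂ T' (N₂.law μ₂) (N.law μ))
    (γ : Measure ((Idx ℕ → X₁ × X₂) × (Idx ℕ → X))) [IsProbabilityMeasure γ]
    (g₁ : γ.map Prod.fst = iid (μ₁.prod μ₂)) (g₂ : γ.map Prod.snd = iid μ)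
    (hγ : ∀ σ : Equiv.Perm ℕ, γ.map (Prod.map (permC σ) (permC σ)) = γ)
    {S₁ : Set (Str L₁)} {S₂ : Set (Str L₂)} {S : Set (Str L')} (hS₁ : S₁ ∈ FinSets L₁)
    (hS₂ : S₂ ∈ FinSets L₂) (hS : S ∈ FinSets L') :
    ∫ z, (ind S₁ (N₁.arr (fun A => (z.1 A).1)) * ind S₂ (N₂.arr (fun A => (z.1 A).2))) *
      ind S (N.arr z.2) ∂γ = ((N₁.law μ₁).real S₁ * (N₂.law μ₂).real S₂) * (N.law μ).real S := by
  classical
  obtain ⟨mS₁, V₁, hV₁⟩ := hS₁
  obtain ⟨mS₂, V₂, hV₂⟩ := hS₂
  obtain ⟨mS, V, hV⟩ := hS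
  set f₁ : (Idx ℕ → X₁) → ℝ := fun θ => ind S₁ (N₁.arr θ) with hf₁
  set f₂ : (Idx ℕ → X₂) → ℝ := fun θ => ind S₂ (N₂.arr θ) with hf₂
  set g : (Idx ℕ → X) → ℝ := fun θ => ind S (N.arr θ) with hg
  have m₁ : Measurable f₁ := (measurable_ind mS₁).comp N₁.measurable_arr
  have m₂ : Measurable f₂ := (measurable_ind mS₂).comp N₂.measurable_arr
  have mg : Measurable g := (measurable_ind mS).comp N.measurable_arr
  set f : (Idx ℕ → X₁ × X₂) → ℝ := fun z => f₁ (fun A => (z A).1) * f₂ (fun A => (z A).2) with hf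
  have mf : Measurable f := (m₁.comp measurable_mfst).mul (m₂.comp measurable_msnd)
  have bf : ∀ z, |f z| ≤ 1 := by
    intro z
    rw [hf]
    simp only [abs_mul]
    exact mul_le_one₀ (abs_ind_le _ _) (abs_nonneg _) (abs_ind_le _ _)
  have low : LowDep (V₁ ∪ V₂).card f := by
    intro x y hxy
    have d₁ := depOn_arr N₁ hV₁ (fun A => (x A).1) (fun A => (y A).1) fun B hB => by
      have : (lev B : ℕ) ≤ (V₁ ∪ V₂).card :=
        Finset.card_le_card ((mem_below.1 hB).trans Finset.subset_union_left)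
      rw [hxy B this]
    have d₂ := depOn_arr N₂ hV₂ (fun A => (x A).2) (fun A => (y A).2) fun B hB => by
      have : (lev B : ℕ) ≤ (V₁ ∪ V₂).card :=
        Finset.card_le_card ((mem_below.1 hB).trans Finset.subset_union_right)
      rw [hxy B this]
    exact congrArg₂ (· * ·) d₁ d₂
  have one : ∀ {Z : Type} (S : Set Z), ∃ M : ℝ, ∀ K, |ind S K| ≤ M :=
    fun S => ⟨1, abs_ind_le S⟩
  have key := integral_mul_of_levels (μ₁.prod μ₂) μ γ g₁ g₂ hγ mf bf mg
    (fun x => abs_ind_le S _) _ low (fun ℓ => by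
      rcases level_dichotomy μ₁ μ N₁ N t₁ t u₁ ℓ with h₁ | h₁
      · rcases level_dichotomy μ₂ μ N₂ N t₂ t u₂ ℓ with h₂ | h₂
        · left
          have a₁ := h₁ V₁ _ (measurable_ind mS₁) (one S₁) hV₁
          have a₂ := h₂ V₂ _ (measurable_ind mS₂) (one S₂) hV₂
          rw [← iid_map_mfst μ₁ μ₂] at a₁
          rw [← iid_map_msnd μ₁ μ₂] at a₂
          have b₁ := ae_of_ae_map measurable_mfst.aemeasurable a₁
          have b₂ := ae_of_ae_map measurable_msnd.aemeasurable a₂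
          filter_upwards [b₁, b₂] with z z₁ z₂
          rw [hf, avg_prod μ₁ μ₂ _ m₁ m₂, avg_prod μ₁ μ₂ _ m₁ m₂, z₁, z₂]
        · right
          exact h₂ V _ (measurable_ind mS) (one S) hV
      · right
        exact h₁ V _ (measurable_ind mS) (one S) hV)
  have e1 : ∫ x, f x ∂(iid (μ₁.prod μ₂)) = (∫ x, f₁ x ∂(iid μ₁)) * ∫ x, f₂ x ∂(iid μ₂) := by
    rw [← integral_prod_mul, ← iid_map_unzip, integral_map measurable_unzip.aemeasurable]
    exact ((m₁.comp measurable_fst).mul (m₂.comp measurable_snd)).aestronglyMeasurable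
  have e2 : ∀ {L : FirstOrder.Language.{0, 0}} {X : Type} [MeasurableSpace X] (μ : Measure X)
      [IsProbabilityMeasure μ] (N : Euc L X) {S : Set (Str L)}, MeasurableSet S →
      ∫ θ, ind S (N.arr θ) ∂(iid μ) = (N.law μ).real S := by
    intro L X _ μ _ N S hS
    rw [measureReal_eq_integral_ind _ hS]
    unfold Euc.law
    rw [integral_map N.measurable_arr.aemeasurable (measurable_ind hS).aestronglyMeasurable]
  rw [e1] at key
  rw [← e2 μ₁ N₁ mS₁, ← e2 μ₂ N₂ mS₂, ← e2 μ N mS]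
  exact key

/-- The reduct of a Euclidean structure. -/
def Euc.redl (N : Euc (L₁.sum L₂) X) : Euc L₁ X where
  peon := fun q => N.peon ⟨q.1, Sum.inl q.2⟩
  meas := fun q π => N.meas ⟨q.1, Sum.inl q.2⟩ π

lemma Euc.redl_arr (N : Euc (L₁.sum L₂) X) (θ : Idx ℕ → X) :
    N.redl.arr θ = redL (N.arr θ) := rfl

/-- The reduct of a limit object. -/
lemma isLimit_redL [L₁.IsRelational] [L₂.IsRelational] {T₁ : L₁.Theory} {T₂ : L₂.Theory}
    {ξ : Measure (Str (L₁.sum L₂))} (h : IsLimit (unionTheory T₁ T₂) ξ) :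
    IsLimit T₁ (ξ.map redL) := by
  obtain ⟨X, _, _, μ, _, N, t, rfl⟩ := h
  refine ⟨X, inferInstance, inferInstance, μ, inferInstance, N.redl, ?_, ?_⟩
  · filter_upwards [t] with θ hθ
    rw [Euc.redl_arr]
    have h2 : (join (redL (N.arr θ), redR (N.arr θ))).Models (unionTheory T₁ T₂) := by
      rw [join_red]
      exact hθ
    exact (models_of_join h2).1
  · unfold Euc.law
    rw [Measure.map_map measurable_redL N.measurable_arr]
    rfl

/-- **Q1 of MP_e8a478.** -/
theorem uniquelyCoupleable_indepCoupling [L₁.IsRelational] [L₂.IsRelational] [L'.IsRelational]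
    [Countable (Σ n, L₁.Relations n)] [Countable (Σ n, L₂.Relations n)]
    [Countable (Σ n, L'.Relations n)] (T₁ : L₁.Theory) (T₂ : L₂.Theory) (T' : L'.Theory)
    (φ₁ : Measure (Str L₁)) (φ₂ : Measure (Str L₂)) (ψ : Measure (Str L')) (h₁ : IsLimit T₁ φ₁)
    (h₂ : IsLimit T₂ φ₂) (hψ : IsLimit T' ψ) (u₁ : UniquelyCoupleable T₁ T' φ₁ ψ)
    (u₂ : UniquelyCoupleable T₂ T' φ₂ ψ) :
    IsLimit (unionTheory T₁ T₂) (indepCoupling φ₁ φ₂) ∧
      UniquelyCoupleable (unionTheory T₁ T₂) T' (indepCoupling φ₁ φ₂) ψ := by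
  obtain ⟨X₁, _, _, μ₁, _, N₁, t₁, rfl⟩ := h₁
  obtain ⟨X₂, _, _, μ₂, _, N₂, t₂, rfl⟩ := h₂
  obtain ⟨X, _, _, μ, _, N, t, rfl⟩ := hψ
  have hlaw := comb_law_prod μ₁ μ₂ N₁ N₂
  have hlim : IsLimit (unionTheory T₁ T₂) (indepCoupling (N₁.law μ₁) (N₂.law μ₂)) := by
    rw [← hlaw]
    exact (comb_isCoupling (μ₁.prod μ₂) μ₁ μ₂ N₁ N₂ (fun _ => Prod.fst) (fun _ => Prod.snd)
      (fun _ => measurable_fst) (fun _ => measurable_snd)
      (fun _ => by rw [Measure.map_fst_prod]; simp) (fun _ => by rw [Measure.map_snd_prod]; simp)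
      t₁ t₂).1
  refine ⟨hlim, ?_⟩
  rintro ξ ⟨hξ, hL, hR⟩
  obtain ⟨Y, _, _, ν, _, M, tM, rfl⟩ := hξ
  have mr : Measurable (fun K : Str ((L₁.sum L₂).sum L') => (redL K, redR K)) :=
    measurable_redL.prodMk measurable_redR
  set ρ : Measure (Str (L₁.sum L₂) × Str L') := (M.law ν).map (fun K => (redL K, redR K)) with hρ
  have iρ : IsProbabilityMeasure ρ := Measure.isProbabilityMeasure_map mr.aemeasurable
  have ρ1 : ρ.map Prod.fst = (Euc.comb N₁ N₂ (fun _ => Prod.fst) (fun _ => Prod.snd)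
      (fun _ => measurable_fst) (fun _ => measurable_snd)).law (μ₁.prod μ₂) := by
    rw [hlaw, ← hL, hρ, Measure.map_map measurable_fst mr]
    rfl
  have ρ2 : ρ.map Prod.snd = N.law μ := by
    rw [← hR, hρ, Measure.map_map measurable_snd mr]
    rfl
  have ρ3 : ∀ σ : Equiv.Perm ℕ, ρ.map (Prod.map (permS σ) (permS σ)) = ρ := by
    intro σ
    rw [hρ, Measure.map_map ((measurable_permS σ).prodMap (measurable_permS σ)) mr]
    conv_rhs => rw [← Euc.law_permS M ν σ]
    rw [Measure.map_map mr (measurable_permS σ)]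
    rfl
  obtain ⟨γ, iγ, g₁, g₂, g₃, g₄⟩ := exists_gluing (μ₁.prod μ₂) μ
    (Euc.comb N₁ N₂ (fun _ => Prod.fst) (fun _ => Prod.snd) (fun _ => measurable_fst)
      (fun _ => measurable_snd)) N ρ ρ1 ρ2 ρ3
  -- the law of the three reducts
  have mrr : Measurable (fun K : Str ((L₁.sum L₂).sum L') =>
      (((redL (redL K), redR (redL K)), redR K) : (Str L₁ × Str L₂) × Str L')) :=
    ((measurable_redL.comp measurable_redL).prodMk (measurable_redR.comp measurable_redL)).prodMk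
      measurable_redR
  have mr2 : Measurable (fun p : Str (L₁.sum L₂) × Str L' =>
      (((redL p.1, redR p.1), p.2) : (Str L₁ × Str L₂) × Str L')) :=
    ((measurable_redL.comp measurable_fst).prodMk (measurable_redR.comp measurable_fst)).prodMk
      measurable_snd
  have marr : Measurable (fun z : (Idx ℕ → X₁ × X₂) × (Idx ℕ → X) =>
      (((N₁.arr (fun A => (z.1 A).1), N₂.arr (fun A => (z.1 A).2)), N.arr z.2) :
        (Str L₁ × Str L₂) × Str L')) :=
    ((N₁.measurable_arr.comp (measurable_mfst.comp measurable_fst)).prodMk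
      (N₂.measurable_arr.comp (measurable_msnd.comp measurable_fst))).prodMk
      (N.measurable_arr.comp measurable_snd)
  have hlaw3 : (M.law ν).map (fun K => (((redL (redL K), redR (redL K)), redR K) :
      (Str L₁ × Str L₂) × Str L')) = γ.map (fun z =>
      (((N₁.arr (fun A => (z.1 A).1), N₂.arr (fun A => (z.1 A).2)), N.arr z.2) :
        (Str L₁ × Str L₂) × Str L')) := by
    have q : (M.law ν).map (fun K => (((redL (redL K), redR (redL K)), redR K) :
      (Str L₁ × Str L₂) × Str L')) = ρ.map (fun p : Str (L₁.sum L₂) × Str L' =>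
      (((redL p.1, redR p.1), p.2) : (Str L₁ × Str L₂) × Str L')) := by
      rw [hρ, Measure.map_map mr2 mr]
      rfl
    rw [q, ← g₃, Measure.map_map mr2 ((Euc.measurable_arr _).prodMap N.measurable_arr)]
    congr 1
  have hprod : ((N₁.law μ₁).prod (N₂.law μ₂)).prod (N.law μ) = (M.law ν).map (fun K =>
      (((redL (redL K), redR (redL K)), redR K) : (Str L₁ × Str L₂) × Str L')) := by
    refine prod_ext₃ _ _ _ (FinSets L₁) (FinSets L₂) (FinSets L') (generateFrom_finSets L₁)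
      (generateFrom_finSets L₂) (generateFrom_finSets L') (isPiSystem_finSets L₁)
      (isPiSystem_finSets L₂) (isPiSystem_finSets L') (univ_mem_finSets _) (univ_mem_finSets _)
      (univ_mem_finSets _) _ ?_
    intro S₁ hS₁ S₂ hS₂ S hS
    have key := integral_triple μ₁ μ₂ μ N₁ N₂ N t₁ t₂ t u₁ u₂ γ g₁ g₂ g₄ hS₁ hS₂ hS
    have mbox : MeasurableSet ((S₁ ×ˢ S₂) ×ˢ S) := (hS₁.1.prod hS₂.1).prod hS.1
    have iγ' : IsProbabilityMeasure (γ.map (fun z =>
      (((N₁.arr (fun A => (z.1 A).1), N₂.arr (fun A => (z.1 A).2)), N.arr z.2) :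
        (Str L₁ × Str L₂) × Str L'))) := Measure.isProbabilityMeasure_map marr.aemeasurable
    rw [hlaw3]
    rw [← ENNReal.toReal_eq_toReal_iff' (measure_ne_top _ _) (by
      exact ENNReal.mul_ne_top (ENNReal.mul_ne_top (measure_ne_top _ _) (measure_ne_top _ _))
        (measure_ne_top _ _)), ENNReal.toReal_mul, ENNReal.toReal_mul]
    change (γ.map _).real _ = (N₁.law μ₁).real S₁ * (N₂.law μ₂).real S₂ * (N.law μ).real S
    rw [← key, measureReal_eq_integral_ind _ mbox, integral_map marr.aemeasurable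
      (measurable_ind mbox).aestronglyMeasurable]
    congr 1
    funext z
    unfold ind
    by_cases c₁ : N₁.arr (fun A => (z.1 A).1) ∈ S₁ <;>
    by_cases c₂ : N₂.arr (fun A => (z.1 A).2) ∈ S₂ <;>
    by_cases c₃ : N.arr z.2 ∈ S <;>
    simp [Set.indicator, c₁, c₂, c₃]
  -- conclusion
  have mj : Measurable (fun w : (Str L₁ × Str L₂) × Str L' => join (join w.1, w.2)) :=
    measurable_join.comp ((measurable_join.comp measurable_fst).prodMk measurable_snd)
  have c1 : (M.law ν) = ((M.law ν).map (fun K => (((redL (redL K), redR (redL K)), redR K) :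
      (Str L₁ × Str L₂) × Str L'))).map (fun w => join (join w.1, w.2)) := by
    rw [Measure.map_map mj mrr]
    have : ((fun w : (Str L₁ × Str L₂) × Str L' => join (join w.1, w.2)) ∘
        fun K : Str ((L₁.sum L₂).sum L') => (((redL (redL K), redR (redL K)), redR K) :
      (Str L₁ × Str L₂) × Str L')) = id := by
      funext K
      simp
    rw [this, Measure.map_id]
  rw [c1, ← hprod]
  unfold indepCoupling
  have e3 : (((N₁.law μ₁).prod (N₂.law μ₂)).map join).prod (N.law μ) =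
      (((N₁.law μ₁).prod (N₂.law μ₂)).prod (N.law μ)).map (Prod.map join id) := by
    rw [← Measure.map_prod_map _ _ measurable_join measurable_id, Measure.map_id]
  rw [e3, Measure.map_map measurable_join (measurable_join.prodMap measurable_id)]
  rfl

/-- **Q2 of MP_e8a478.** -/
theorem uniquelyCoupleable_triple [L₁.IsRelational] [L₂.IsRelational] [L'.IsRelational]
    [Countable (Σ n, L₁.Relations n)] [Countable (Σ n, L₂.Relations n)]
    [Countable (Σ n, L'.Relations n)] (T₁ : L₁.Theory) (T₂ : L₂.Theory) (T' : L'.Theory)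
    (φ₁ : Measure (Str L₁)) (φ₂ : Measure (Str L₂)) (ψ : Measure (Str L')) (h₁ : IsLimit T₁ φ₁)
    (h₂ : IsLimit T₂ φ₂) (hψ : IsLimit T' ψ) (u₁₂ : UniquelyCoupleable T₁ T₂ φ₁ φ₂)
    (u₁ : UniquelyCoupleable T₁ T' φ₁ ψ) (u₂ : UniquelyCoupleable T₂ T' φ₂ ψ)
    (ξ : Measure (Str ((L₁.sum L₂).sum L')))
    (hξ : IsLimit (unionTheory (unionTheory T₁ T₂) T') ξ)
    (e₁ : ξ.map (fun K => redL (redL K)) = φ₁) (e₂ : ξ.map (fun K => redR (redL K)) = φ₂)
    (e₃ : ξ.map redR = ψ) : ξ = indepCoupling (indepCoupling φ₁ φ₂) ψ := by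
  have h := uniquelyCoupleable_indepCoupling T₁ T₂ T' φ₁ φ₂ ψ h₁ h₂ hψ u₁ u₂
  have hc : IsCoupling T₁ T₂ φ₁ φ₂ (ξ.map redL) := by
    refine ⟨isLimit_redL hξ, ?_, ?_⟩
    · rw [Measure.map_map measurable_redL measurable_redL]
      exact e₁
    · rw [Measure.map_map measurable_redR measurable_redL]
      exact e₂
  exact h.2 ξ ⟨hξ, u₁₂ _ hc, e₃⟩

end Pool.Agent.R80.GT
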